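import Pool.Agent.Helper710.FrechetModules

set_option autoImplicit false

namespace Pool.Agent.Results.MP_8296bc_an.NoCoresolution

open Pool.Agent.Helper710.FrechetModules

universe u v

section Coresolutions

variable {A : Type u} [NonUnitalRing A] [Module ℂ A] [UniformSpace A]

/-- continuous linear maps between (the underlying Fréchet spaces of) two modules -/
abbrev Lin (X Y : FrechetModule.{u, v} A) : Type v := X.carrier →L[ℂ] Y.carrier

/-- the composition `g ∘ f` vanishes -/
def CompZero {X Y Z : FrechetModule.{u, v} A} (f : Lin X Y) (g : Lin Y Z) : Prop :=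
  ∀ x, g (f x) = 0

/-- `s ∘ f` is the identity -/
def LeftInv {X Y : FrechetModule.{u, v} A} (f : Lin X Y) (s : Lin Y X) : Prop :=
  ∀ x, s (f x) = x

/-- the homotopy identity `f ∘ s + t ∘ g = id` at `Y` in `X → Y → Z` -/
def Homotopy {X Y Z : FrechetModule.{u, v} A} (f : Lin X Y) (g : Lin Y Z) (s : Lin Y X)
    (t : Lin Z Y) : Prop :=
  ∀ y, f (s y) + t (g y) = y

/-- A coresolution of `X`: a complex `0 → X → J 0 → J 1 → ...` of Fréchet `A`-modules
and module morphisms, with a contracting homotopy made of continuous linear maps. -/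
structure Coresolution (X : FrechetModule.{u, v} A) where
  J : ℕ → FrechetModule.{u, v} A
  ε : Lin X (J 0)
  d : ∀ n, Lin (J n) (J (n + 1))
  ε_morphism : IsMorphism X (J 0) ε
  d_morphism : ∀ n, IsMorphism (J n) (J (n + 1)) (d n)
  d_ε : CompZero ε (d 0)
  d_d : ∀ n, CompZero (d n) (d (n + 1))
  s : Lin (J 0) X
  h : ∀ n, Lin (J (n + 1)) (J n)
  s_ε : LeftInv ε s
  homotopy_zero : Homotopy ε (d 0) s (h 0)
  homotopy_succ : ∀ n, Homotopy (d n) (d (n + 1)) (h n) (h (n + 1))

/-- The coresolution is injective when all its modules `J n` are injective. -/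
def Coresolution.IsInjective {X : FrechetModule.{u, v} A} (R : Coresolution X) : Prop :=
  ∀ n, (R.J n).IsInjective

end Coresolutions

/-- the one-dimensional module with zero action -/
noncomputable def trivialModule : FrechetModule.{0, v} RadSeries where
  carrier := PUnit.{v + 1} → ℂ
  isFrechetSpace :=
    { toIsUniformAddGroup := inferInstance
      toContinuousSMul := inferInstance
      toLocallyConvexSpace := inferInstance
      toCompleteSpace := inferInstance
      metrizable := inferInstance }
  act := 0
  act_mul := fun _ _ _ => rfl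
  continuous_act := continuous_const

/-- There is a Fréchet algebra `A`, possessing non-zero Fréchet modules, such that no non-zero
Fréchet `A`-module has an injective coresolution. -/
theorem result : ∃ (A : Type) (_ : NonUnitalRing A) (_ : Module ℂ A) (_ : UniformSpace A),
    IsFrechetAlgebra A ∧ (∃ X : FrechetModule.{0, v} A, Nontrivial X.carrier) ∧
    ∀ X : FrechetModule.{0, v} A, Nontrivial X.carrier →
      ¬ ∃ R : Coresolution X, R.IsInjective := by
  refine ⟨RadSeries, inferInstance, inferInstance, inferInstance, inferInstance,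
    ⟨trivialModule, inferInstanceAs (Nontrivial (PUnit.{v + 1} → ℂ))⟩, ?_⟩
  rintro X ⟨x, y, hxy⟩ ⟨R, hR⟩
  have hsub : Subsingleton (R.J 0).carrier := RadSeries.subsingleton_of_isInjective _ (hR 0)
  apply hxy
  rw [← R.s_ε x, ← R.s_ε y, Subsingleton.elim (R.ε x) (R.ε y)]

end Pool.Agent.Results.MP_8296bc_an.NoCoresolution
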