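import Pool.Agent.Helper710.FrechetUnital

set_option autoImplicit false

namespace Pool.Agent.Results.MP_8296bc_an.NoCoresolutionUnital

open Pool.Agent.Helper710.FrechetModules Pool.Agent.Helper710.FrechetUnital
open scoped PowerSeries.WithPiTopology

universe u v

section Coresolutions

variable {A : Type u} [Ring A] [Algebra ℂ A] [UniformSpace A]

/-- continuous linear maps between (the underlying Fréchet spaces of) two unital modules -/
abbrev Lin (X Y : UnitalFrechetModule.{u, v} A) : Type v := X.carrier →L[ℂ] Y.carrier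

/-- the composition `g ∘ f` vanishes -/
def CompZero {X Y Z : UnitalFrechetModule.{u, v} A} (f : Lin X Y) (g : Lin Y Z) : Prop :=
  ∀ x, g (f x) = 0

/-- `s ∘ f` is the identity -/
def LeftInv {X Y : UnitalFrechetModule.{u, v} A} (f : Lin X Y) (s : Lin Y X) : Prop :=
  ∀ x, s (f x) = x

/-- the homotopy identity `f ∘ s + t ∘ g = id` at `Y` in `X → Y → Z` -/
def Homotopy {X Y Z : UnitalFrechetModule.{u, v} A} (f : Lin X Y) (g : Lin Y Z) (s : Lin Y X)
    (t : Lin Z Y) : Prop :=
  ∀ y, f (s y) + t (g y) = y

/-- A coresolution of the unital module `X`: a complex `0 → X → J 0 → J 1 → ...` of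
unital Fréchet `A`-modules and morphisms with a contracting homotopy made of continuous linear
maps. -/
structure UnitalCoresolution (X : UnitalFrechetModule.{u, v} A) where
  J : ℕ → UnitalFrechetModule.{u, v} A
  ε : Lin X (J 0)
  d : ∀ n, Lin (J n) (J (n + 1))
  ε_morphism : IsUMorphism X (J 0) ε
  d_morphism : ∀ n, IsUMorphism (J n) (J (n + 1)) (d n)
  d_ε : CompZero ε (d 0)
  d_d : ∀ n, CompZero (d n) (d (n + 1))
  s : Lin (J 0) X
  h : ∀ n, Lin (J (n + 1)) (J n)
  s_ε : LeftInv ε s
  homotopy_zero : Homotopy ε (d 0) s (h 0)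
  homotopy_succ : ∀ n, Homotopy (d n) (d (n + 1)) (h n) (h (n + 1))

end Coresolutions

/-- There is a commutative unital Fréchet algebra `A` (formal power series in one variable) such
that no non-zero unital Fréchet `A`-module has a coresolution by unital Fréchet modules which are
injective among unital Fréchet modules; `A` itself is such a non-zero module. -/
theorem result : ∃ (A : Type) (_ : CommRing A) (_ : Algebra ℂ A) (_ : UniformSpace A),
    IsFrechetAlgebra A ∧ (∃ X : UnitalFrechetModule.{0, 0} A, Nontrivial X.carrier) ∧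
    ∀ X : UnitalFrechetModule.{0, v} A, Nontrivial X.carrier →
      ¬ ∃ R : UnitalCoresolution X, ∀ n, (R.J n).IsInjective := by
  refine ⟨PowerSeries ℂ, inferInstance, inferInstance, inferInstance, inferInstance,
    ⟨{ carrier := PowerSeries ℂ
       act := LinearMap.mul ℂ (PowerSeries ℂ)
       act_one := fun x => one_mul x
       act_mul := fun a b x => mul_assoc a b x
       continuous_act := continuous_mul }, inferInstanceAs (Nontrivial (PowerSeries ℂ))⟩, ?_⟩
  rintro X ⟨x, y, hxy⟩ ⟨R, hR⟩
  have hsub : Subsingleton (R.J 0).carrier := subsingleton_of_isInjective _ (hR 0)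
  apply hxy
  rw [← R.s_ε x, ← R.s_ε y, Subsingleton.elim (R.ε x) (R.ε y)]

end Pool.Agent.Results.MP_8296bc_an.NoCoresolutionUnital
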